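import Pool.Agent.Helper156_EK.FinA
import Pool.Agent.Helper156_EK.LawFin
import Pool.Agent.Helper156_EK.Poly

set_option autoImplicit false

/-!
# MP_1156f3_nt: how often the error term `E_k` is large, all `k ≥ 2`

Let `I_k(t) = ∫_0^t |ζ(1/2 + iu)|^(2k) du`, `k ≥ 2`, `B ≥ 0`, `0 ≤ α < 1`, `C > 0`. There is `c > 0` such that for all
large `T`, all `H` with `T / (log T)^α ≤ H ≤ T`, every function `M` which is differentiable on `[T, T + H]` with
`M' ≤ C (log T)^(k²)` and all `0 ≤ x ≤ B log log T` the set of the `t ∈ [T, T + H]` with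
`|I_k(t) - M(t)| > c e^(2kx) (log T)^(2k²-1)` has measure at least
`c H exp (-x² / log log T) / (1 + x / √(log log T))`.

So for `M(t) = t P(log t) + y`, `deg P ≤ k²`, we have `|I_k(t) - M(t)| ≫ (log t)^(2k²-1)` for a positive proportion of
the `t`, uniformly in the real number `y`.
-/

open MeasureTheory Filter

namespace Pool.Agent.Results.MP_1156f3_nt.ErrorTermDistribution

/-- The moment `I_k(T)`. -/
noncomputable def moment (k : ℕ) (T : ℝ) : ℝ :=
  ∫ t in (0:ℝ)..T, ‖riemannZeta (1 / 2 + t * Complex.I)‖ ^ (2 * k)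

theorem result (k : ℕ) (hk : 2 ≤ k) (B α : ℝ) (hB : 0 ≤ B) (hα0 : 0 ≤ α) (hα1 : α < 1) :
    (∀ C : ℝ, 0 < C → ∃ c : ℝ, 0 < c ∧ ∀ᶠ T : ℝ in atTop, ∀ H : ℝ, T / Real.log T ^ α ≤ H → H ≤ T →
      ∀ M : ℝ → ℝ,
        (∀ t ∈ Set.Icc T (T + H), DifferentiableAt ℝ M t ∧ deriv M t ≤ C * Real.log T ^ (k ^ 2)) →
        ∀ x : ℝ, 0 ≤ x → x ≤ B * Real.log (Real.log T) →
          c * (H * (Real.exp (-(x ^ 2 / Real.log (Real.log T))) / (1 + x / Real.sqrt (Real.log (Real.log T))))) ≤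
            volume.real {t ∈ Set.Icc T (T + H) |
              c * Real.exp (2 * k * x) * Real.log T ^ (2 * k ^ 2 - 1) < |moment k t - M t|}) ∧
    (∀ P : Polynomial ℝ, P.natDegree ≤ k ^ 2 → ∃ c : ℝ, 0 < c ∧
      ∀ᶠ T : ℝ in atTop, ∀ H : ℝ, T / Real.log T ^ α ≤ H → H ≤ T → ∀ y x : ℝ, 0 ≤ x →
        x ≤ B * Real.log (Real.log T) →
          c * (H * (Real.exp (-(x ^ 2 / Real.log (Real.log T))) / (1 + x / Real.sqrt (Real.log (Real.log T))))) ≤
            volume.real {t ∈ Set.Icc T (T + H) |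
              c * Real.exp (2 * k * x) * Real.log T ^ (2 * k ^ 2 - 1) <
                |moment k t - (t * P.eval (Real.log t) + y)|}) := by
  have h0 := fun C hC => Pool.Agent.Helper156_EK.mainA Pool.Agent.Helper156_EK.law k hk B C α hB hC hα0 hα1
  refine ⟨fun C hC => h0 C hC, fun P hP => ?_⟩
  obtain ⟨C, hC, hslope⟩ := Pool.Agent.Helper156_EK.main_slope P hP
  obtain ⟨c, hc, h⟩ := h0 C hC
  refine ⟨c, hc, ?_⟩
  filter_upwards [h, eventually_ge_atTop (Real.exp 1)] with T hT hT1 H hH1 hH2 y x hx0 hxB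
  have hT0 : 0 < T := (Real.exp_pos 1).trans_le hT1
  exact hT H hH1 hH2 (fun t => t * P.eval (Real.log t) + y) (fun t ht => by
    have h3 := Pool.Agent.Helper156_EK.main_deriv P y (hT0.trans_le ht.1)
    refine ⟨h3.differentiableAt, ?_⟩
    rw [h3.deriv]
    exact (le_abs_self _).trans (hslope T hT1 t ⟨ht.1, by linarith [ht.2]⟩)) x hx0 hxB

end Pool.Agent.Results.MP_1156f3_nt.ErrorTermDistribution
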