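import Pool.Agent.Helper156_SM.FinD

set_option autoImplicit false

/-!
# MP_1156f3_nt: the error exponents of the shifted moments near the shift `0`, all `k ≥ 1`

For real `u` let `I_k(u; T) = ∫_0^T ζ(1/2 + i(t + u))^k * conj (ζ(1/2 + i(t - u)))^k dt`, so that `I_k(0; T) = I_k(T)` is the
moment of the problem. For every `k ≥ 1` and every `κ > 0` there is `c > 0` such that for all small `r > 0` the shifts
`u ∈ [-r, r]` for which `I_k(u; T)` has an asymptotic formula with error term `O(T^(c r))` have measure at most `κ r`.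

So for most small shifts `u` the error exponent is at least `c |u|`: the ratio of the error exponent and `|u|` does not tend
to `0` along any set of shifts which has positive upper density at `0`.
-/

open MeasureTheory Set Filter

namespace Pool.Agent.Results.MP_1156f3_nt.SmallExponentShifts

/-- The shifted moment of order `2 k`: the integral over `[0, T]` of
`ζ (1/2 + i (t + u)) ^ k * conj (ζ (1/2 + i (t - u))) ^ k`. For `u = 0` it is the integral of
`|ζ (1/2 + i t)| ^ (2 k)`. -/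
noncomputable def shiftedMoment (k : ℕ) (u T : ℝ) : ℂ :=
  ∫ t in (0 : ℝ)..T, riemannZeta (1 / 2 + (t + u) * Complex.I) ^ k *
    (starRingEnd ℂ) (riemannZeta (1 / 2 + (t - u) * Complex.I)) ^ k

/-- The main terms that are allowed: functions `M` with two derivatives on `[1, ∞)`, the second one
continuous, such that `M' (t) = O (t ^ δ)` and `M'' (t) = O (t ^ (δ - 1))` for every `δ > 0`. -/
def IsMainTerm (M : ℝ → ℂ) : Prop :=
  ∃ M' M'' : ℝ → ℂ, (∀ t : ℝ, 1 ≤ t → HasDerivAt M (M' t) t) ∧ (∀ t : ℝ, 1 ≤ t → HasDerivAt M' (M'' t) t) ∧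
    ContinuousOn M'' (Ici 1) ∧
    ∀ δ : ℝ, 0 < δ → ∃ C : ℝ, ∀ t : ℝ, 1 ≤ t → ‖M' t‖ ≤ C * t ^ δ ∧ ‖M'' t‖ ≤ C * t ^ (δ - 1)

/-- The shifted moment has an asymptotic formula with error term `O (T ^ θ)`. -/
def HasError (k : ℕ) (u θ : ℝ) : Prop :=
  ∃ M : ℝ → ℂ, IsMainTerm M ∧ ∃ C T₀ : ℝ, ∀ T : ℝ, T₀ ≤ T → ‖shiftedMoment k u T - M T‖ ≤ C * T ^ θ

theorem result (k : ℕ) (hk : 1 ≤ k) (κ : ℝ) (hκ : 0 < κ) :
    ∃ c r₀ : ℝ, 0 < c ∧ 0 < r₀ ∧ ∀ r : ℝ, 0 < r → r ≤ r₀ →
      volume {u : ℝ | |u| ≤ r ∧ HasError k u (c * r)} ≤ ENNReal.ofReal (κ * r) := by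
  obtain ⟨c, r₀, hc, hr₀, h, _⟩ := Pool.Agent.Helper156_SM.finD0 hk hκ
  exact ⟨c, r₀, hc, hr₀, h⟩

end Pool.Agent.Results.MP_1156f3_nt.SmallExponentShifts
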