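import Pool.Agent.Helper156_SM.FinL3

set_option autoImplicit false

/-!
# MP_1156f3_nt: the error terms of the sixth and the eighth moment in the strip

Let `k ≥ 2` and `(2k - 1) / (2k + 2) < σ < 3/4`. The `2k`-th moment of `ζ` on the line `Re s = σ` has no asymptotic formula
with error term `O(T^θ)` if `θ < (3 - 4σ) (2(k + 1)σ - (2k - 1)) / (12 σ)`.

This is the interval `5/8 < σ < 3/4` for the sixth moment, with the exponent `(3 - 4σ) (8σ - 5) / (12 σ)`, and the interval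
`7/10 < σ < 3/4` for the eighth moment, with the exponent `(3 - 4σ) (10σ - 7) / (12 σ)` (for `k ≥ 5` there is no such `σ`).
-/

open MeasureTheory Set Filter

namespace Pool.Agent.Results.MP_1156f3_nt.StripMoments

/-- The main terms that are allowed: functions `M` with two derivatives on `[1, ∞)`, the second one
continuous, such that `M' (t) = O (t ^ δ)` and `M'' (t) = O (t ^ (δ - 1))` for every `δ > 0`. -/
def IsMainTerm (M : ℝ → ℂ) : Prop :=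
  ∃ M' M'' : ℝ → ℂ, (∀ t : ℝ, 1 ≤ t → HasDerivAt M (M' t) t) ∧ (∀ t : ℝ, 1 ≤ t → HasDerivAt M' (M'' t) t) ∧
    ContinuousOn M'' (Ici 1) ∧
    ∀ δ : ℝ, 0 < δ → ∃ C : ℝ, ∀ t : ℝ, 1 ≤ t → ‖M' t‖ ≤ C * t ^ δ ∧ ‖M'' t‖ ≤ C * t ^ (δ - 1)

/-- The moment of order `2 k` on the line `Re s = σ` has an asymptotic formula with error term `O (T ^ θ)`. -/
def HasLineError (k : ℕ) (σ θ : ℝ) : Prop :=
  ∃ M : ℝ → ℂ, IsMainTerm M ∧ ∃ C T₀ : ℝ, ∀ T : ℝ, T₀ ≤ T →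
    ‖((∫ t in (0 : ℝ)..T, ‖riemannZeta (σ + t * Complex.I)‖ ^ (2 * k) : ℝ) : ℂ) - M T‖ ≤ C * T ^ θ

theorem result (k : ℕ) (hk : 2 ≤ k) (σ θ : ℝ) (h1 : (2 * k - 1 : ℝ) / (2 * (k + 1)) < σ) (h2 : σ < 3 / 4)
    (hθ : θ < (3 - 4 * σ) * (2 * (k + 1) * σ - (2 * k - 1)) / (12 * σ)) : ¬ HasLineError k σ θ :=
  Pool.Agent.Helper156_SM.finL3 hk h1 h2 hθ

end Pool.Agent.Results.MP_1156f3_nt.StripMoments
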