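import Pool.Agent.Helper156_SM.FinL2

set_option autoImplicit false

/-!
# MP_1156f3_nt: powers of `T` in the error terms of the moments on two lines, all `k ≥ 1`

Let `1/2 ≤ σ₁ < σ₂ < 3/4` and `k ≥ 1`. If the `2k`-th moment of `ζ` on the line `Re s = σ₁` has an asymptotic formula
with an error term `O(T^θ₁)` for some `θ₁ < 1`, then the `2k`-th moment on the line `Re s = σ₂` has no asymptotic formula
with error term `O(T^θ₂)`, `θ₂ < (σ₂ - σ₁) (3 - 4 σ₂) / (4 σ₂ (1 - σ₁))`.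

With `σ₁ = 1/2`: if `θ_k < 1`, then the analogous exponent on the line `Re s = σ` is at least
`(σ - 1/2) (3 - 4 σ) / (2 σ)` for every `1/2 < σ < 3/4`.
-/

open MeasureTheory Set Filter

namespace Pool.Agent.Results.MP_1156f3_nt.TwoLines

/-- The main terms that are allowed: functions `M` with two derivatives on `[1, ∞)`, the second one
continuous, such that `M' (t) = O (t ^ δ)` and `M'' (t) = O (t ^ (δ - 1))` for every `δ > 0`. -/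
def IsMainTerm (M : ℝ → ℂ) : Prop :=
  ∃ M' M'' : ℝ → ℂ, (∀ t : ℝ, 1 ≤ t → HasDerivAt M (M' t) t) ∧ (∀ t : ℝ, 1 ≤ t → HasDerivAt M' (M'' t) t) ∧
    ContinuousOn M'' (Ici 1) ∧
    ∀ δ : ℝ, 0 < δ → ∃ C : ℝ, ∀ t : ℝ, 1 ≤ t → ‖M' t‖ ≤ C * t ^ δ ∧ ‖M'' t‖ ≤ C * t ^ (δ - 1)

/-- The moment of order `2 k` on the line `Re s = σ` has an asymptotic formula with error term `O (T ^ θ)`. -/
def HasLineError (k : ℕ) (σ θ : ℝ) : Prop :=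
  ∃ M : ℝ → ℂ, IsMainTerm M ∧ ∃ C T₀ : ℝ, ∀ T : ℝ, T₀ ≤ T →
    ‖((∫ t in (0 : ℝ)..T, ‖riemannZeta (σ + t * Complex.I)‖ ^ (2 * k) : ℝ) : ℂ) - M T‖ ≤ C * T ^ θ

theorem result (k : ℕ) (hk : 1 ≤ k) (σ₁ σ₂ θ₁ θ₂ : ℝ) (h1 : 1 / 2 ≤ σ₁) (h12 : σ₁ < σ₂) (h2 : σ₂ < 3 / 4) (hθ1 : θ₁ < 1)
    (hθ2 : θ₂ < (σ₂ - σ₁) * (3 - 4 * σ₂) / (4 * σ₂ * (1 - σ₁))) :
    ¬ (HasLineError k σ₁ θ₁ ∧ HasLineError k σ₂ θ₂) :=
  Pool.Agent.Helper156_SM.finL hk h1 h12 h2 hθ1 hθ2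

end Pool.Agent.Results.MP_1156f3_nt.TwoLines
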